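import Pool.Agent.Q131.Mag.Defs

open Finset
open scoped BigOperators ComplexConjugate Matrix ComplexOrder

noncomputable section

namespace Q131.Mag

section general

variable {V : Type} [Fintype V] (G : SimpleGraph V) (σ : Potential G)

open Classical in
/-- The magnetic adjacency matrix. -/
def am (x y : V) : ℂ := if G.Adj x y then σ.val x y else 0

lemma am_conj (x y : V) : am G σ y x = conj (am G σ x y) := by
  unfold am
  by_cases h : G.Adj x y
  · rw [if_pos h, if_pos h.symm, σ.anti x y h]
  · rw [if_neg h, if_neg (fun h' => h h'.symm), map_zero]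

lemma am_norm {x y : V} (h : G.Adj x y) : ‖am G σ x y‖ = 1 := by
  unfold am
  rw [if_pos h, σ.unit x y h]

lemma am_zero {x y : V} (h : ¬ G.Adj x y) : am G σ x y = 0 := by
  unfold am
  rw [if_neg h]

open Classical in
lemma lap_eq {n : ℕ} (hreg : ∀ x, (univ.filter (fun y => G.Adj x y)).card = n) (f : V → ℂ)
    (x : V) : lap G σ f x = n * f x - ∑ y, am G σ x y * f y := by
  unfold lap am
  rw [Finset.sum_sub_distrib, Finset.sum_const, hreg x, nsmul_eq_mul, Finset.sum_filter]
  simp only [ite_mul, zero_mul]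

open Classical in
/-- Testing the magnetic Laplacian of a bipartite regular graph with a vector built from two
vertices at distance two. -/
lemma lam1_le_of_pair {n : ℕ} (hn : 0 < n)
    (hreg : ∀ x, (univ.filter (fun y => G.Adj x y)).card = n)
    (ε : V → Bool) (hbip : ∀ x y, G.Adj x y → ε x ≠ ε y)
    {x0 y0 : V} (hxy : x0 ≠ y0) (hε : ε x0 = ε y0) {z : ℂ}
    (hz : ∑ u, am G σ x0 u * am G σ u y0 = z) :
    lam1 G σ ≤ n - Real.sqrt (n + ‖z‖) := by
  -- the coefficient b
  obtain ⟨b, hb1, hbz⟩ : ∃ b : ℂ, ‖b‖ = 1 ∧ b * z = (‖z‖ : ℂ) := by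
    by_cases hz0 : z = 0
    · exact ⟨1, by simp, by simp [hz0]⟩
    · refine ⟨conj z / ‖z‖, ?_, ?_⟩
      · rw [norm_div, Complex.norm_conj, Complex.norm_real, norm_norm, div_self]
        exact norm_ne_zero_iff.2 hz0
      · have h1 : ((‖z‖ : ℝ) : ℂ) ≠ 0 := by
          exact_mod_cast norm_ne_zero_iff.2 hz0
        field_simp
        rw [Complex.conj_mul']
  set g : V → ℂ := fun x => if x = x0 then 1 else if x = y0 then b else 0 with hg
  set h : V → ℂ := fun x => ∑ y, am G σ x y * g y with hh
  have hh' : ∀ x, h x = am G σ x x0 + am G σ x y0 * b := by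
    intro x
    rw [hh]
    have : ∀ y, am G σ x y * g y = (if y = x0 then am G σ x y else 0) +
        (if y = y0 then am G σ x y * b else 0) := by
      intro y
      by_cases h1 : y = x0
      · have h2 : y ≠ y0 := fun h3 => hxy (h1 ▸ h3)
        simp [hg, h1, hxy]
      · by_cases h2 : y = y0
        · simp [hg, h2, hxy.symm]
        · simp [hg, h1, h2]
    simp only [this, Finset.sum_add_distrib, Finset.sum_ite_eq', mem_univ, if_true]
  set t : ℝ := Real.sqrt (n + ‖z‖) with ht
  have htpos : 0 < t := Real.sqrt_pos.2 (by positivity)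
  have ht2 : t ^ 2 = n + ‖z‖ := Real.sq_sqrt (by positivity)
  -- supports
  have hgs : ∀ x, g x ≠ 0 → ε x = ε x0 := by
    intro x hx
    by_cases h1 : x = x0
    · rw [h1]
    · by_cases h2 : x = y0
      · rw [h2, hε]
      · simp [hg, h1, h2] at hx
  have hhs : ∀ x, h x ≠ 0 → ε x ≠ ε x0 := by
    intro x hx
    rw [hh] at hx
    obtain ⟨y, _, hy⟩ := Finset.exists_ne_zero_of_sum_ne_zero hx
    have h1 : am G σ x y ≠ 0 := left_ne_zero_of_mul hy
    have h2 : g y ≠ 0 := right_ne_zero_of_mul hy
    have h3 : G.Adj x y := by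
      by_contra h4
      exact h1 (am_zero G σ h4)
    rw [← hgs y h2]
    exact hbip x y h3
  -- norms
  have hgn : ∑ x, ‖g x‖ ^ 2 = 2 := by
    have : ∀ x, ‖g x‖ ^ 2 = (if x = x0 then (1 : ℝ) else 0) + (if x = y0 then 1 else 0) := by
      intro x
      by_cases h1 : x = x0
      · simp [hg, h1, hxy]
      · by_cases h2 : x = y0
        · simp [hg, h2, hxy.symm, hb1]
        · simp [hg, h1, h2]
    simp only [this, Finset.sum_add_distrib, Finset.sum_ite_eq', mem_univ, if_true]
    norm_num
  have hcnt : ∀ w, ∑ x, ‖am G σ x w‖ ^ 2 = (n : ℝ) := by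
    intro w
    have : ∀ x, ‖am G σ x w‖ ^ 2 = if G.Adj w x then (1 : ℝ) else 0 := by
      intro x
      by_cases h1 : G.Adj w x
      · rw [if_pos h1, am_norm G σ h1.symm]; norm_num
      · rw [if_neg h1, am_zero G σ (fun h2 => h1 h2.symm)]; simp
    simp only [this]
    rw [Finset.sum_ite, Finset.sum_const_zero, add_zero, Finset.sum_const, hreg w, nsmul_eq_mul,
      mul_one]
  have hM : ∑ x, ‖h x‖ ^ 2 = 2 * (n + ‖z‖) := by
    have h1 : ∀ x, ‖h x‖ ^ 2 = ‖am G σ x x0‖ ^ 2 + ‖am G σ x y0‖ ^ 2 +
        2 * (b * (am G σ x0 x * am G σ x y0)).re := by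
      intro x
      rw [hh' x, ← Complex.normSq_eq_norm_sq, ← Complex.normSq_eq_norm_sq,
        ← Complex.normSq_eq_norm_sq, Complex.normSq_add, Complex.normSq_mul]
      have h2 : Complex.normSq b = 1 := by
        rw [Complex.normSq_eq_norm_sq, hb1]; norm_num
      rw [h2, mul_one]
      congr 2
      rw [am_conj G σ x x0, ← Complex.conj_re (b * _)]
      congr 1
      simp only [map_mul, Complex.conj_conj]
      ring
    simp only [h1, Finset.sum_add_distrib, hcnt, ← Finset.mul_sum, ← Complex.re_sum]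
    rw [hz, hbz, Complex.ofReal_re]
    ring
  -- the test vector
  have hfn : ∑ x, ‖(t : ℂ) * g x + h x‖ ^ 2 = 4 * (n + ‖z‖) := by
    have h1 : ∀ x, ‖(t : ℂ) * g x + h x‖ ^ 2 = t ^ 2 * ‖g x‖ ^ 2 + ‖h x‖ ^ 2 := by
      intro x
      by_cases h2 : g x = 0
      · simp [h2]
      · have h3 : h x = 0 := by
          by_contra h4
          exact hhs x h4 (hgs x h2)
        simp [h3, mul_pow]
    simp only [h1, Finset.sum_add_distrib, ← Finset.mul_sum, hgn, hM, ht2]
    ring
  have key := rayleigh G σ (fun x => (t : ℂ) * g x + h x)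
  have hsum : (∑ x, conj ((t : ℂ) * g x + h x) * lap G σ (fun x => (t : ℂ) * g x + h x) x) =
      (n : ℂ) * ((∑ x, ‖(t : ℂ) * g x + h x‖ ^ 2 : ℝ) : ℂ) -
      ∑ x, ∑ y, conj ((t : ℂ) * g x + h x) * am G σ x y * ((t : ℂ) * g y + h y) := by
    rw [Complex.ofReal_sum, Finset.mul_sum, ← Finset.sum_sub_distrib]
    apply Finset.sum_congr rfl
    intro x _
    rw [lap_eq G σ hreg, mul_sub, Finset.mul_sum]
    congr 1
    · have := Complex.conj_mul' ((t : ℂ) * g x + h x)
      rw [Complex.ofReal_pow, ← this]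
      ring
    · apply Finset.sum_congr rfl
      intro y _
      ring
  -- bilinear sums
  have Bgg : ∑ x, ∑ y, conj (g x) * am G σ x y * g y = 0 := by
    apply Finset.sum_eq_zero
    intro x _
    apply Finset.sum_eq_zero
    intro y _
    by_contra h1
    have h2 : g y ≠ 0 := right_ne_zero_of_mul h1
    have h3 := left_ne_zero_of_mul h1
    have h4 : g x ≠ 0 := by
      have := left_ne_zero_of_mul h3
      intro h5; exact this (by rw [h5, map_zero])
    have h5 : G.Adj x y := by
      by_contra h6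
      exact (right_ne_zero_of_mul h3) (am_zero G σ h6)
    exact hbip x y h5 ((hgs x h4).trans (hgs y h2).symm)
  have Bhh : ∑ x, ∑ y, conj (h x) * am G σ x y * h y = 0 := by
    apply Finset.sum_eq_zero
    intro x _
    apply Finset.sum_eq_zero
    intro y _
    by_contra h1
    have h2 : h y ≠ 0 := right_ne_zero_of_mul h1
    have h3 := left_ne_zero_of_mul h1
    have h4 : h x ≠ 0 := by
      have := left_ne_zero_of_mul h3
      intro h5; exact this (by rw [h5, map_zero])
    have h5 : G.Adj x y := by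
      by_contra h6
      exact (right_ne_zero_of_mul h3) (am_zero G σ h6)
    have h6 := hhs x h4
    have h7 := hhs y h2
    have h8 := hbip x y h5
    revert h6 h7 h8
    cases ε x <;> cases ε y <;> cases ε x0 <;> simp
  have Bhg : ∑ x, ∑ y, conj (h x) * am G σ x y * g y = ((2 * (n + ‖z‖) : ℝ) : ℂ) := by
    rw [← hM, Complex.ofReal_sum]
    apply Finset.sum_congr rfl
    intro x _
    have h1 : ∑ y, conj (h x) * am G σ x y * g y = conj (h x) * h x := by
      rw [hh, Finset.mul_sum]
      apply Finset.sum_congr rfl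
      intro y _
      ring
    rw [h1, Complex.conj_mul', Complex.ofReal_pow]
  have Bgh : ∑ x, ∑ y, conj (g x) * am G σ x y * h y = ((2 * (n + ‖z‖) : ℝ) : ℂ) := by
    have h1 : ∑ x, ∑ y, conj (g x) * am G σ x y * h y =
        conj (∑ x, ∑ y, conj (h x) * am G σ x y * g y) := by
      rw [Finset.sum_comm, map_sum]
      apply Finset.sum_congr rfl
      intro y _
      rw [map_sum]
      apply Finset.sum_congr rfl
      intro x _
      rw [map_mul, map_mul, Complex.conj_conj, ← am_conj]
      ring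
    rw [h1, Bhg, Complex.conj_ofReal]
  have hB : ∑ x, ∑ y, conj ((t : ℂ) * g x + h x) * am G σ x y * ((t : ℂ) * g y + h y) =
      ((4 * t * (n + ‖z‖) : ℝ) : ℂ) := by
    have h1 : ∀ x y, conj ((t : ℂ) * g x + h x) * am G σ x y * ((t : ℂ) * g y + h y) =
        (t : ℂ) ^ 2 * (conj (g x) * am G σ x y * g y) + (t : ℂ) * (conj (g x) * am G σ x y * h y) +
        (t : ℂ) * (conj (h x) * am G σ x y * g y) + conj (h x) * am G σ x y * h y := by
      intro x y
      rw [map_add, map_mul, Complex.conj_ofReal]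
      ring
    simp only [h1, Finset.sum_add_distrib, ← Finset.mul_sum, Bgg, Bgh, Bhg, Bhh]
    push_cast
    ring
  rw [hsum, hfn, hB, ← Complex.ofReal_natCast, ← Complex.ofReal_mul, ← Complex.ofReal_sub,
    Complex.ofReal_re] at key
  have hp : (0 : ℝ) < 4 * (n + ‖z‖) := by
    have : (0 : ℝ) < n := by exact_mod_cast hn
    positivity
  have : lam1 G σ * (4 * (n + ‖z‖)) ≤ (n - t) * (4 * (n + ‖z‖)) := by
    nlinarith
  exact le_of_mul_le_mul_right this hp

open Classical in
/-- The least eigenvalue is at most the degree. -/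
lemma lam1_le_deg [Nonempty V] {n : ℕ}
    (hreg : ∀ x, (univ.filter (fun y => G.Adj x y)).card = n) :
    lam1 G σ ≤ n := by
  obtain ⟨x0⟩ := ‹Nonempty V›
  have key := rayleigh G σ (fun x => if x = x0 then 1 else 0)
  have h1 : ∑ x, ‖(if x = x0 then (1 : ℂ) else 0)‖ ^ 2 = (1 : ℝ) := by
    have : ∀ x, ‖(if x = x0 then (1 : ℂ) else 0)‖ ^ 2 = if x = x0 then (1 : ℝ) else 0 := by
      intro x
      by_cases h : x = x0 <;> simp [h]
    simp only [this, Finset.sum_ite_eq', mem_univ, if_true]
  have h2 : ∑ x, conj (if x = x0 then (1 : ℂ) else 0) *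
      lap G σ (fun x => if x = x0 then 1 else 0) x = n := by
    have : ∀ x, conj (if x = x0 then (1 : ℂ) else 0) *
      lap G σ (fun x => if x = x0 then 1 else 0) x = if x = x0 then (n : ℂ) else 0 := by
      intro x
      by_cases h : x = x0
      · subst h
        rw [if_pos rfl, if_pos rfl, map_one, one_mul, lap_eq G σ hreg]
        simp [am_zero G σ (G.loopless.irrefl x)]
      · simp [h]
    simp only [this, Finset.sum_ite_eq', mem_univ, if_true]
  rw [h1, h2, mul_one, Complex.natCast_re] at key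
  exact key

end general

end Q131.Mag
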