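import Pool.Agent.Q131.Mag.Bound

open Finset
open scoped BigOperators ComplexConjugate Matrix ComplexOrder

noncomputable section

namespace Q131.Mag

/-- The Cayley graph of a group of exponent two with connection list `s`. -/
def cay {V : Type} [AddCommGroup V] {n : ℕ} (s : Fin n → V) (h2 : ∀ x : V, x + x = 0)
    (h0 : ∀ i, s i ≠ 0) : SimpleGraph V where
  Adj x y := ∃ i, y = x + s i
  symm := ⟨by
    rintro x y ⟨i, rfl⟩
    exact ⟨i, by rw [add_assoc, h2, add_zero]⟩⟩
  loopless := ⟨by
    rintro x ⟨i, h⟩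
    exact h0 i (by simpa using h)⟩

section cayley

variable {V : Type} [Fintype V] [AddCommGroup V] {n : ℕ} {s : Fin n → V}
  {h2 : ∀ x : V, x + x = 0} {h0 : ∀ i, s i ≠ 0}

open Classical in
lemma cay_sum (hs : Function.Injective s) (σ : Potential (cay s h2 h0)) (x : V) (f : V → ℂ) :
    ∑ y, am _ σ x y * f y = ∑ i, am _ σ x (x + s i) * f (x + s i) := by
  have h1 : ∑ y, am _ σ x y * f y = ∑ y ∈ univ.image (fun i => x + s i), am _ σ x y * f y := by
    symm
    apply Finset.sum_subset (subset_univ _)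
    intro y _ hy
    rw [am_zero, zero_mul]
    rintro ⟨i, hi⟩
    exact hy (mem_image.2 ⟨i, mem_univ _, hi.symm⟩)
  rw [h1, Finset.sum_image]
  intro i _ j _ hij
  exact hs (add_left_cancel hij)

open Classical in
lemma cay_reg (hs : Function.Injective s) (x : V) :
    (univ.filter (fun y => (cay s h2 h0).Adj x y)).card = n := by
  have : univ.filter (fun y => (cay s h2 h0).Adj x y) = univ.image (fun i => x + s i) := by
    ext y
    simp only [mem_filter, mem_univ, true_and, mem_image]
    constructor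
    · rintro ⟨i, hi⟩
      exact ⟨i, hi.symm⟩
    · rintro ⟨i, hi⟩
      exact ⟨i, hi.symm⟩
  rw [this, Finset.card_image_of_injective]
  · simp
  · intro i j hij
    exact hs (add_left_cancel hij)

open Classical in
lemma cay_two (hs : Function.Injective s) (σ : Potential (cay s h2 h0)) (x : V) {i j : Fin n}
    (hij : i ≠ j)
    (hsid : ∀ k l, s k + s l = s i + s j → k = i ∨ k = j) :
    ∑ u, am _ σ x u * am _ σ u (x + s i + s j) =
      am _ σ x (x + s i) * am _ σ (x + s i) (x + s i + s j) +
      am _ σ x (x + s j) * am _ σ (x + s j) (x + s i + s j) := by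
  rw [cay_sum hs σ x (fun u => am _ σ u (x + s i + s j))]
  rw [Finset.sum_eq_add i j hij]
  · intro k _ hk
    rw [am_zero _ _ (x := x + s k), mul_zero]
    rintro ⟨l, hl⟩
    have h3 : s k + s l = s i + s j := by
      have : x + (s i + s j) = x + (s k + s l) := by rw [← add_assoc, ← add_assoc]; exact hl
      exact (add_left_cancel this).symm
    rcases hsid k l h3 with h | h
    · exact hk.1 h
    · exact hk.2 h
  · intro h; exact absurd (mem_univ _) h
  · intro h; exact absurd (mem_univ _) h

end cayley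

/-- a product of unit complex numbers close to one is close to one -/
lemma norm_prod_sub_one_le {ι : Type} (t : Finset ι) (u : ι → ℂ) (hu : ∀ i ∈ t, ‖u i‖ = 1) :
    ‖∏ i ∈ t, u i - 1‖ ≤ ∑ i ∈ t, ‖u i - 1‖ := by
  classical
  induction t using Finset.induction_on with
  | empty => simp
  | insert a t ha ih =>
    rw [Finset.prod_insert ha, Finset.sum_insert ha]
    have h1 : u a * ∏ i ∈ t, u i - 1 = u a * (∏ i ∈ t, u i - 1) + (u a - 1) := by ring
    rw [h1]
    refine (norm_add_le _ _).trans ?_
    rw [norm_mul, hu a (mem_insert_self _ _), one_mul, add_comm]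
    gcongr
    exact ih (fun i hi => hu i (mem_insert_of_mem hi))

/-! ### The concrete graphs -/

/-- the nine generators of `𝔽₂⁷`: `s₀ + … + s₅ = 0` and `s₃ + … + s₈ = 0` -/
def gen : Fin 9 → (Fin 7 → ZMod 2) :=
  ![![1,0,0,0,0,0,0], ![0,1,0,0,0,0,0], ![0,0,1,0,0,0,0], ![0,0,0,1,0,0,0], ![0,0,0,0,1,0,0],
    ![1,1,1,1,1,0,0], ![0,0,0,0,0,1,0], ![0,0,0,0,0,0,1], ![1,1,1,0,0,1,1]]

lemma two7 (x : Fin 7 → ZMod 2) : x + x = 0 := by
  ext i
  exact CharTwo.add_self_eq_zero (x i)

lemma two9 (x : Fin 9 → ZMod 2) : x + x = 0 := by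
  ext i
  exact CharTwo.add_self_eq_zero (x i)

lemma gen_ne (i : Fin 9) : gen i ≠ 0 := by
  revert i; decide

lemma gen_inj : Function.Injective gen := by
  intro i j
  revert i j
  decide

lemma gen_sidon : ∀ i j k l : Fin 9, i ≠ j → gen k + gen l = gen i + gen j → k = i ∨ k = j := by
  decide +kernel

end Q131.Mag
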