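import Mathlib

open Finset
open scoped BigOperators ComplexConjugate Matrix ComplexOrder

noncomputable section

namespace Q131.Mag

/-- A magnetic potential on `G`: a unit complex number on every oriented edge, with
`σ_{yx} = conj σ_{xy}`. (The values on non-edges are irrelevant.) -/
structure Potential {V : Type} (G : SimpleGraph V) where
  val : V → V → ℂ
  unit : ∀ x y, G.Adj x y → ‖val x y‖ = 1
  anti : ∀ x y, G.Adj x y → val y x = conj (val x y)

open Classical in
/-- The magnetic Laplacian `Δ^σ f (x) = ∑_{y ∼ x} (f x - σ_{xy} f y)`. -/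
def lap {V : Type} [Fintype V] (G : SimpleGraph V) (σ : Potential G) (f : V → ℂ) (x : V) : ℂ :=
  ∑ y ∈ univ.filter (fun y => G.Adj x y), (f x - σ.val x y * f y)

/-- `μ` is an eigenvalue of the magnetic Laplacian. -/
def IsEig {V : Type} [Fintype V] (G : SimpleGraph V) (σ : Potential G) (μ : ℝ) : Prop :=
  ∃ f : V → ℂ, f ≠ 0 ∧ ∀ x, lap G σ f x = (μ : ℂ) * f x

/-- The smallest eigenvalue of the magnetic Laplacian. -/
def lam1 {V : Type} [Fintype V] (G : SimpleGraph V) (σ : Potential G) : ℝ :=
  sInf {μ : ℝ | IsEig G σ μ}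

/-- The magneto-spectral height `ν(G) = sup_σ λ_1^σ(G)`. -/
def height {V : Type} [Fintype V] (G : SimpleGraph V) : ℝ :=
  sSup (Set.range fun σ : Potential G => lam1 G σ)

/-- `p` is a finite lift (covering) `H → G`. -/
structure IsLift {V W : Type} (H : SimpleGraph W) (G : SimpleGraph V) (p : W → V) : Prop where
  hom : ∀ x y, H.Adj x y → G.Adj (p x) (p y)
  surj : Function.Surjective p
  bij : ∀ x, Set.BijOn p (H.neighborSet x) (G.neighborSet (p x))

section general

variable {V : Type} [Fintype V] (G : SimpleGraph V) (σ : Potential G)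

open Classical in
/-- The matrix of the magnetic Laplacian. -/
def mat : Matrix V V ℂ := fun x y =>
  (if x = y then ((univ.filter (fun y => G.Adj x y)).card : ℂ) else 0) -
    (if G.Adj x y then σ.val x y else 0)

open Classical in
lemma mat_mulVec (f : V → ℂ) (x : V) : (mat G σ *ᵥ f) x = lap G σ f x := by
  unfold mat lap
  simp only [Matrix.mulVec, dotProduct, sub_mul, Finset.sum_sub_distrib, ite_mul, zero_mul]
  rw [Finset.sum_ite_eq, if_pos (mem_univ x), Finset.sum_const, nsmul_eq_mul, Finset.sum_filter]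

lemma mat_herm : (mat G σ).IsHermitian := by
  classical
  ext x y
  rw [Matrix.conjTranspose_apply]
  unfold mat
  by_cases hxy : x = y
  · subst hxy
    simp
  · have hyx : ¬ y = x := fun h => hxy h.symm
    by_cases h : G.Adj x y
    · have h' : G.Adj y x := h.symm
      simp only [hxy, hyx, h, h', if_true, if_false, zero_sub, star_neg]
      congr 1
      rw [σ.anti x y h]
      simp
    · have h' : ¬ G.Adj y x := fun h' => h h'.symm
      simp [hxy, hyx, h, h']

lemma eig_nonempty [Nonempty V] : {μ : ℝ | IsEig G σ μ}.Nonempty := by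
  classical
  obtain ⟨j⟩ := ‹Nonempty V›
  refine ⟨(mat_herm G σ).eigenvalues j, ⇑((mat_herm G σ).eigenvectorBasis j), ?_, ?_⟩
  · have := (mat_herm G σ).eigenvectorBasis.orthonormal.ne_zero j
    intro h
    apply this
    ext x
    simpa using congrFun h x
  · intro x
    rw [← mat_mulVec, (mat_herm G σ).mulVec_eigenvectorBasis j]
    simp

lemma eig_finite : {μ : ℝ | IsEig G σ μ}.Finite := by
  classical
  have h := Module.End.finite_hasEigenvalue (Matrix.toLin' (mat G σ))
  have h2 : ((fun μ : ℝ => (μ : ℂ)) ⁻¹' {a | Module.End.HasEigenvalue (Matrix.toLin' (mat G σ)) a}).Finite :=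
    Set.Finite.preimage (Complex.ofReal_injective.injOn) h
  refine h2.subset ?_
  rintro μ ⟨f, hf, hfe⟩
  show Module.End.HasEigenvalue (Matrix.toLin' (mat G σ)) (μ : ℂ)
  apply Module.End.hasEigenvalue_of_hasEigenvector (x := f)
  rw [Module.End.hasEigenvector_iff, Module.End.mem_eigenspace_iff]
  refine ⟨?_, hf⟩
  ext x
  rw [Matrix.toLin'_apply, mat_mulVec, hfe x]
  simp

lemma lam1_le {μ : ℝ} (h : IsEig G σ μ) : lam1 G σ ≤ μ :=
  csInf_le (eig_finite G σ).bddBelow h

/-- `lam1` really is the least eigenvalue. -/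
lemma lam1_isLeast [Nonempty V] : IsLeast {μ : ℝ | IsEig G σ μ} (lam1 G σ) :=
  ⟨(eig_finite G σ).isCompact.isClosed.csInf_mem (eig_nonempty G σ) (eig_finite G σ).bddBelow,
    fun _ h => lam1_le G σ h⟩

/-- The variational principle (only the upper bound is needed). -/
lemma rayleigh (f : V → ℂ) :
    lam1 G σ * ∑ x, ‖f x‖ ^ 2 ≤ (∑ x, conj (f x) * lap G σ f x).re := by
  classical
  set c : ℝ := lam1 G σ with hc
  have hH : (mat G σ - (c : ℂ) • (1 : Matrix V V ℂ)).IsHermitian := by
    apply (mat_herm G σ).sub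
    unfold Matrix.IsHermitian
    rw [Matrix.conjTranspose_smul, Matrix.conjTranspose_one]
    simp
  have hpsd : (mat G σ - (c : ℂ) • (1 : Matrix V V ℂ)).PosSemidef := by
    rw [hH.posSemidef_iff_eigenvalues_nonneg]
    intro j
    have h1 := hH.mulVec_eigenvectorBasis j
    set v : V → ℂ := ⇑(hH.eigenvectorBasis j) with hv
    have hv0 : v ≠ 0 := by
      have := hH.eigenvectorBasis.orthonormal.ne_zero j
      intro h
      apply this
      ext x
      simpa using congrFun h x
    have h2 : IsEig G σ (hH.eigenvalues j + c) := by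
      refine ⟨v, hv0, fun x => ?_⟩
      have h3 := congrFun h1 x
      rw [Matrix.sub_mulVec, Pi.sub_apply, mat_mulVec, Matrix.smul_mulVec, Matrix.one_mulVec,
        Pi.smul_apply, Pi.smul_apply, smul_eq_mul] at h3
      have h4 : (hH.eigenvalues j) • v x = ((hH.eigenvalues j : ℝ) : ℂ) * v x := by simp
      rw [h4] at h3
      rw [Complex.ofReal_add]
      linear_combination h3
    have h5 := lam1_le G σ h2
    show (0 : ℝ) ≤ hH.eigenvalues j
    linarith
  have h6 := hpsd.dotProduct_mulVec_nonneg f
  have h7 : (star f ⬝ᵥ ((mat G σ - (c : ℂ) • (1 : Matrix V V ℂ)) *ᵥ f)) =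
      (∑ x, conj (f x) * lap G σ f x) - (c : ℂ) * ((∑ x, ‖f x‖ ^ 2 : ℝ) : ℂ) := by
    rw [Matrix.sub_mulVec, Matrix.smul_mulVec, Matrix.one_mulVec]
    simp only [dotProduct, Pi.sub_apply, Pi.smul_apply, Pi.star_apply, smul_eq_mul, mul_sub,
      Finset.sum_sub_distrib]
    congr 1
    · apply Finset.sum_congr rfl
      intro x _
      rw [mat_mulVec]
      rfl
    · rw [Complex.ofReal_sum, Finset.mul_sum]
      apply Finset.sum_congr rfl
      intro x _
      have : star (f x) * f x = ((‖f x‖ ^ 2 : ℝ) : ℂ) := by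
        have := Complex.conj_mul' (f x)
        rw [Complex.ofReal_pow]
        exact this
      rw [← this]
      ring
  rw [h7] at h6
  have h8 := (Complex.le_def.1 h6).1
  rw [Complex.sub_re, Complex.re_ofReal_mul, Complex.ofReal_re, Complex.zero_re] at h8
  linarith

end general

end Q131.Mag
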