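import Pool.Agent.Q131.Mag.Cay

open Finset
open scoped BigOperators ComplexConjugate Matrix ComplexOrder

noncomputable section

namespace Q131.Mag

/-- the base graph: Cayley graph of `𝔽₂⁷` with the nine generators -/
def G7 : SimpleGraph (Fin 7 → ZMod 2) := cay gen two7 gen_ne

lemma single_ne (i : Fin 9) : (Pi.single i 1 : Fin 9 → ZMod 2) ≠ 0 := by
  revert i; decide

lemma single_inj : Function.Injective (fun i : Fin 9 => (Pi.single i 1 : Fin 9 → ZMod 2)) := by
  intro i j
  revert i j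
  decide

/-- the 9-dimensional cube -/
def Q9 : SimpleGraph (Fin 9 → ZMod 2) :=
  cay (fun i : Fin 9 => (Pi.single i 1 : Fin 9 → ZMod 2)) two9 single_ne

/-- the covering map -/
def pr (w : Fin 9 → ZMod 2) : Fin 7 → ZMod 2 := ∑ i, w i • gen i

lemma pr_add (w w' : Fin 9 → ZMod 2) : pr (w + w') = pr w + pr w' := by
  unfold pr
  simp only [Pi.add_apply, add_smul, Finset.sum_add_distrib]

lemma pr_single (i : Fin 9) : pr (Pi.single i 1) = gen i := by
  revert i; decide

lemma pr_surj : Function.Surjective pr := by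
  intro v
  refine ⟨![v 0, v 1, v 2, v 3, v 4, 0, v 5, v 6, 0], ?_⟩
  unfold pr
  ext j
  rw [Finset.sum_apply]
  simp only [Pi.smul_apply, smul_eq_mul, Fin.sum_univ_succ, Fin.sum_univ_zero]
  fin_cases j <;> simp [gen]

lemma isLift : IsLift Q9 G7 pr where
  hom := by
    rintro x y ⟨i, rfl⟩
    exact ⟨i, by rw [pr_add, pr_single]⟩
  surj := pr_surj
  bij := by
    intro x
    refine ⟨?_, ?_, ?_⟩
    · rintro y ⟨i, rfl⟩
      exact ⟨i, by rw [pr_add, pr_single]⟩
    · rintro y ⟨i, rfl⟩ z ⟨j, rfl⟩ h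
      simp only [pr_add, pr_single] at h
      rw [gen_inj (add_left_cancel h)]
    · rintro v ⟨i, rfl⟩
      exact ⟨x + Pi.single i 1, ⟨i, rfl⟩, by rw [pr_add, pr_single]⟩

/-! ### The base graph: a torus of 4-cycles -/

/-- first walk -/
def P : Fin 6 → (Fin 7 → ZMod 2) :=
  ![0, ![1,0,0,0,0,0,0], ![1,1,0,0,0,0,0], ![1,1,1,0,0,0,0], ![1,1,1,1,0,0,0], ![1,1,1,1,1,0,0]]
/-- second walk -/
def R : Fin 6 → (Fin 7 → ZMod 2) :=
  ![0, ![0,0,0,1,0,0,0], ![0,0,0,1,1,0,0], ![1,1,1,0,0,0,0], ![1,1,1,0,0,1,0], ![1,1,1,0,0,1,1]]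

def al : Fin 6 → Fin 9 := ![0, 1, 2, 3, 4, 5]
def be : Fin 6 → Fin 9 := ![3, 4, 5, 6, 7, 8]

lemma P_step (a : Fin 6) : P (a + 1) = P a + gen (al a) := by revert a; decide
lemma R_step (b : Fin 6) : R (b + 1) = R b + gen (be b) := by revert b; decide

def vt (a b : Fin 6) : Fin 7 → ZMod 2 := P a + R b

lemma vt_h (a b : Fin 6) : vt (a + 1) b = vt a b + gen (al a) := by
  unfold vt; rw [P_step]; abel
lemma vt_v (a b : Fin 6) : vt a (b + 1) = vt a b + gen (be b) := by
  unfold vt; rw [R_step]; abel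

section
variable (σ : Potential G7)

def hh (a b : Fin 6) : ℂ := am G7 σ (vt a b) (vt (a + 1) b)
def kk (a b : Fin 6) : ℂ := am G7 σ (vt a b) (vt a (b + 1))

lemma hh_mul (a b : Fin 6) : hh σ a b * conj (hh σ a b) = 1 := by
  have h1 : ‖hh σ a b‖ = 1 := am_norm G7 σ ⟨al a, vt_h a b⟩
  rw [Complex.mul_conj', h1]; norm_num

lemma kk_mul (a b : Fin 6) : kk σ a b * conj (kk σ a b) = 1 := by
  have h1 : ‖kk σ a b‖ = 1 := am_norm G7 σ ⟨be b, vt_v a b⟩
  rw [Complex.mul_conj', h1]; norm_num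

def FF (q : Fin 6 × Fin 6) : ℂ :=
  hh σ q.1 q.2 * kk σ (q.1 + 1) q.2 * conj (hh σ q.1 (q.2 + 1)) * conj (kk σ q.1 q.2)

lemma prod_FF : ∏ q : Fin 6 × Fin 6, FF σ q = 1 := by
  unfold FF
  simp only [Finset.prod_mul_distrib]
  have h1 : ∏ q : Fin 6 × Fin 6, kk σ (q.1 + 1) q.2 = ∏ q : Fin 6 × Fin 6, kk σ q.1 q.2 := by
    apply Fintype.prod_bijective (fun q : Fin 6 × Fin 6 => (q.1 + 1, q.2))
    · exact ((Equiv.addRight (1 : Fin 6)).prodCongr (Equiv.refl _)).bijective
    · intro q; rfl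
  have h2 : ∏ q : Fin 6 × Fin 6, conj (hh σ q.1 (q.2 + 1)) =
      ∏ q : Fin 6 × Fin 6, conj (hh σ q.1 q.2) := by
    apply Fintype.prod_bijective (fun q : Fin 6 × Fin 6 => (q.1, q.2 + 1))
    · exact ((Equiv.refl _).prodCongr (Equiv.addRight (1 : Fin 6))).bijective
    · intro q; rfl
  rw [h1, h2]
  have h3 : (∏ q : Fin 6 × Fin 6, hh σ q.1 q.2) * (∏ q : Fin 6 × Fin 6, conj (hh σ q.1 q.2)) = 1 := by
    rw [← Finset.prod_mul_distrib]
    exact Finset.prod_eq_one (fun q _ => hh_mul σ q.1 q.2)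
  have h4 : (∏ q : Fin 6 × Fin 6, kk σ q.1 q.2) * (∏ q : Fin 6 × Fin 6, conj (kk σ q.1 q.2)) = 1 := by
    rw [← Finset.prod_mul_distrib]
    exact Finset.prod_eq_one (fun q _ => kk_mul σ q.1 q.2)
  linear_combination (∏ q : Fin 6 × Fin 6, kk σ q.1 q.2) * (∏ q : Fin 6 × Fin 6, conj (kk σ q.1 q.2)) * h3 + h4

lemma FF_norm (q : Fin 6 × Fin 6) : ‖FF σ q‖ = 1 := by
  unfold FF
  rw [norm_mul, norm_mul, norm_mul, Complex.norm_conj, Complex.norm_conj]
  have h1 : ∀ a b, ‖hh σ a b‖ = 1 := fun a b => am_norm G7 σ ⟨al a, vt_h a b⟩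
  have h2 : ∀ a b, ‖kk σ a b‖ = 1 := fun a b => am_norm G7 σ ⟨be b, vt_v a b⟩
  rw [h1, h2, h1, h2]; norm_num

lemma FF_deg (q : Fin 6 × Fin 6) (hq : al q.1 = be q.2) : FF σ q = 1 := by
  obtain ⟨a, b⟩ := q
  simp only at hq
  have h1 : vt a (b + 1) = vt (a + 1) b := by rw [vt_h, vt_v, hq]
  have h2 : vt (a + 1) (b + 1) = vt a b := by
    rw [vt_h, vt_v, hq, add_assoc, two7, add_zero]
  have e1 : hh σ a b = kk σ a b := by unfold hh kk; rw [h1]
  have e2 : kk σ (a + 1) b = conj (hh σ a b) := by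
    unfold kk hh
    rw [h2]
    exact am_conj G7 σ _ _
  have e3 : hh σ a (b + 1) = conj (kk σ a b) := by
    unfold kk hh
    rw [h2]
    exact am_conj G7 σ _ _
  unfold FF
  simp only
  rw [e2, e3, Complex.conj_conj, hh_mul, one_mul, kk_mul]

lemma exists_bad : ∃ q : Fin 6 × Fin 6, al q.1 ≠ be q.2 ∧ 1 / 18 ≤ ‖FF σ q + 1‖ := by
  by_contra hcon
  push Not at hcon
  let u : Fin 6 × Fin 6 → ℂ := fun q => (if al q.1 = be q.2 then (1 : ℂ) else -1) * FF σ q
  have h1 : ∏ q, u q = -1 := by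
    show ∏ q : Fin 6 × Fin 6, ((if al q.1 = be q.2 then (1 : ℂ) else -1) * FF σ q) = -1
    rw [Finset.prod_mul_distrib, prod_FF, mul_one, Finset.prod_ite]
    rw [Finset.prod_const_one, one_mul, Finset.prod_const]
    have : (univ.filter (fun q : Fin 6 × Fin 6 => ¬ al q.1 = be q.2)).card = 33 := by decide
    rw [this]; norm_num
  have h2 := norm_prod_sub_one_le (univ : Finset (Fin 6 × Fin 6)) u (by
    intro q _
    show ‖(if al q.1 = be q.2 then (1 : ℂ) else -1) * FF σ q‖ = 1
    rw [norm_mul, FF_norm, mul_one]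
    split_ifs <;> simp)
  rw [h1] at h2
  have h3 : ∀ q ∈ (univ : Finset (Fin 6 × Fin 6)), ‖u q - 1‖ ≤ 1 / 18 := by
    intro q _
    show ‖(if al q.1 = be q.2 then (1 : ℂ) else -1) * FF σ q - 1‖ ≤ 1 / 18
    by_cases h : al q.1 = be q.2
    · rw [if_pos h, FF_deg σ q h]; norm_num
    · rw [if_neg h]
      have h4 : (-1 : ℂ) * FF σ q - 1 = -(FF σ q + 1) := by ring
      rw [h4, norm_neg]
      exact (hcon q h).le
  have h4 : ∑ q : Fin 6 × Fin 6, ‖u q - 1‖ < ∑ _q : Fin 6 × Fin 6, (1 / 18 : ℝ) := by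
    apply Finset.sum_lt_sum h3
    refine ⟨(0, 1), mem_univ _, ?_⟩
    have h : al ((0, 1) : Fin 6 × Fin 6).1 ≠ be ((0, 1) : Fin 6 × Fin 6).2 := by decide
    show ‖(if al ((0, 1) : Fin 6 × Fin 6).1 = be ((0, 1) : Fin 6 × Fin 6).2 then (1 : ℂ) else -1) *
      FF σ (0, 1) - 1‖ < 1 / 18
    rw [if_neg h]
    have h4 : (-1 : ℂ) * FF σ (0, 1) - 1 = -(FF σ (0, 1) + 1) := by ring
    rw [h4, norm_neg]
    exact hcon _ h
  have h5 : ∑ _q : Fin 6 × Fin 6, (1 / 18 : ℝ) = 2 := by
    rw [Finset.sum_const, card_univ, nsmul_eq_mul]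
    norm_num [Fintype.card_prod]
  have h6 : ‖(-1 : ℂ) - 1‖ = 2 := by
    have : (-1 : ℂ) - 1 = -2 := by norm_num
    rw [this, norm_neg]; norm_num
  rw [h6] at h2
  linarith

/-- the two sides of the base graph -/
def side (x : Fin 7 → ZMod 2) : Bool := decide (∑ i, x i = 0)

lemma gen_sum (i : Fin 9) : ∑ j, gen i j = 1 := by revert i; decide

lemma side_adj (x y : Fin 7 → ZMod 2) (h : G7.Adj x y) : side x ≠ side y := by
  obtain ⟨i, rfl⟩ := h
  unfold side
  have h1 : ∑ j, (x + gen i) j = ∑ j, x j + 1 := by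
    simp only [Pi.add_apply, Finset.sum_add_distrib, gen_sum]
  rw [h1]
  generalize ∑ j, x j = c
  revert c
  decide

lemma lam1_G7 : lam1 G7 σ ≤ 9 - Real.sqrt (9 + 1 / 18) := by
  classical
  obtain ⟨⟨a, b⟩, hne, hF⟩ := exists_bad σ
  simp only at hne
  set x := vt a b with hx
  have hy : vt (a + 1) (b + 1) = x + gen (al a) + gen (be b) := by rw [vt_v, vt_h]
  have h1 := cay_two (h2 := two7) (h0 := gen_ne) gen_inj σ x hne
    (fun k l => gen_sidon (al a) (be b) k l hne)
  have hz : ‖am G7 σ x (x + gen (al a)) * am G7 σ (x + gen (al a)) (x + gen (al a) + gen (be b)) +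
      am G7 σ x (x + gen (be b)) * am G7 σ (x + gen (be b)) (x + gen (al a) + gen (be b))‖ =
      ‖FF σ (a, b) + 1‖ := by
    set p1 := am G7 σ x (x + gen (al a)) * am G7 σ (x + gen (al a)) (x + gen (al a) + gen (be b))
      with hp1
    set p2 := am G7 σ x (x + gen (be b)) * am G7 σ (x + gen (be b)) (x + gen (al a) + gen (be b))
      with hp2
    have e1 : hh σ a b = am G7 σ x (x + gen (al a)) := by unfold hh; rw [vt_h]
    have e2 : kk σ (a + 1) b = am G7 σ (x + gen (al a)) (x + gen (al a) + gen (be b)) := by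
      unfold kk; rw [vt_v, vt_h]
    have e3 : kk σ a b = am G7 σ x (x + gen (be b)) := by unfold kk; rw [vt_v]
    have e4 : hh σ a (b + 1) = am G7 σ (x + gen (be b)) (x + gen (al a) + gen (be b)) := by
      unfold hh; rw [hy, vt_v]
    have h3 : FF σ (a, b) = p1 * conj p2 := by
      unfold FF
      simp only
      rw [e1, e2, e3, e4, hp1, hp2, map_mul]
      ring
    have h4 : p2 * conj p2 = 1 := by
      rw [hp2, ← e3, ← e4, map_mul]
      have k1 := hh_mul σ a (b + 1)
      have k2 := kk_mul σ a b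
      linear_combination (hh σ a (b + 1) * conj (hh σ a (b + 1))) * k2 + k1
    have h5 : ‖conj p2‖ = 1 := by
      have := congrArg norm h4
      rw [norm_mul, Complex.norm_conj, norm_one] at this
      rw [Complex.norm_conj]
      nlinarith [norm_nonneg p2]
    have h6 : FF σ (a, b) + 1 = (p1 + p2) * conj p2 := by
      rw [h3, add_mul, h4]
    rw [h6, norm_mul, h5, mul_one]
  have hxy : x ≠ x + gen (al a) + gen (be b) := by
    intro h
    have h3 : gen (al a) + gen (be b) = 0 := by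
      have : x + (gen (al a) + gen (be b)) = x + 0 := by rw [← add_assoc, ← h, add_zero]
      exact add_left_cancel this
    have h4 : gen (al a) = gen (be b) := by
      have h5 : gen (al a) + gen (be b) + gen (be b) = 0 + gen (be b) := by rw [h3]
      rwa [add_assoc, two7, add_zero, zero_add] at h5
    exact hne (gen_inj h4)
  have hside : side x = side (x + gen (al a) + gen (be b)) := by
    have k1 := side_adj x (x + gen (al a)) ⟨al a, rfl⟩
    have k2 := side_adj (x + gen (al a)) (x + gen (al a) + gen (be b)) ⟨be b, rfl⟩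
    revert k1 k2
    cases side x <;> cases side (x + gen (al a)) <;>
      cases side (x + gen (al a) + gen (be b)) <;> simp
  have key := lam1_le_of_pair G7 σ (n := 9) (by norm_num) (cay_reg gen_inj) side side_adj hxy hside h1
  refine key.trans ?_
  have h7 : Real.sqrt (9 + 1 / 18) ≤ Real.sqrt (((9 : ℕ) : ℝ) +
      ‖am G7 σ x (x + gen (al a)) * am G7 σ (x + gen (al a)) (x + gen (al a) + gen (be b)) +
      am G7 σ x (x + gen (be b)) * am G7 σ (x + gen (be b)) (x + gen (al a) + gen (be b))‖) := by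
    apply Real.sqrt_le_sqrt
    rw [hz]
    push_cast
    linarith
  have h8 : ((9 : ℕ) : ℝ) = 9 := by norm_num
  calc ((9 : ℕ) : ℝ) - Real.sqrt (((9 : ℕ) : ℝ) + _) ≤ ((9 : ℕ) : ℝ) - Real.sqrt (9 + 1 / 18) := by
        exact sub_le_sub_left h7 _
    _ = 9 - Real.sqrt (9 + 1 / 18) := by rw [h8]

end

/-- the trivial potential -/
def triv {V : Type} (G : SimpleGraph V) : Potential G where
  val := fun _ _ => 1
  unit := by simp
  anti := by simp

lemma height_G7_le : height G7 ≤ 9 - Real.sqrt (9 + 1 / 18) := by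
  have hne : (Set.range (fun σ : Potential G7 => lam1 G7 σ)).Nonempty :=
    ⟨lam1 G7 (triv G7), ⟨triv G7, rfl⟩⟩
  refine csSup_le hne ?_
  rintro _ ⟨σ, rfl⟩
  exact lam1_G7 σ

lemma height_G7 : height G7 < 6 := by
  have h1 := height_G7_le
  have h2 : 3 < Real.sqrt (9 + 1 / 18) := by
    rw [Real.lt_sqrt (by norm_num)]
    norm_num
  linarith

/-! ### The cube: Huang's signing -/

/-- the sign at coordinate `k` -/
def sg (w : Fin 9 → ZMod 2) (k : Fin 9) : ℂ :=
  ∏ j ∈ univ.filter (fun j => j < k), (if w j = 0 then (1 : ℂ) else -1)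

lemma sg_sq (w : Fin 9 → ZMod 2) (k : Fin 9) : sg w k * sg w k = 1 := by
  unfold sg
  rw [← Finset.prod_mul_distrib]
  apply Finset.prod_eq_one
  intro j _
  split_ifs <;> norm_num

lemma sg_conj (w : Fin 9 → ZMod 2) (k : Fin 9) : conj (sg w k) = sg w k := by
  unfold sg
  rw [map_prod]
  apply Finset.prod_congr rfl
  intro j _
  split_ifs <;> simp

lemma sg_flip_ge (w : Fin 9 → ZMod 2) {i k : Fin 9} (h : k ≤ i) :
    sg (w + Pi.single i 1) k = sg w k := by
  unfold sg
  apply Finset.prod_congr rfl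
  intro j hj
  have hj' : j < k := by simpa using hj
  have : j ≠ i := fun h' => absurd (h' ▸ hj') (not_lt.2 h)
  simp [this]

lemma sg_flip_lt (w : Fin 9 → ZMod 2) {i k : Fin 9} (h : i < k) :
    sg (w + Pi.single i 1) k = - sg w k := by
  unfold sg
  have hi : i ∈ univ.filter (fun j => j < k) := by simpa using h
  rw [← Finset.mul_prod_erase _ _ hi, ← Finset.mul_prod_erase _ (fun j => if w j = 0 then (1 : ℂ) else -1) hi,
    ← neg_mul]
  congr 1
  · simp only [Pi.add_apply, Pi.single_eq_same]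
    generalize w i = c
    have hc : c = 0 ∨ c = 1 := by revert c; decide
    rcases hc with rfl | rfl
    · simp
    · have : (1 : ZMod 2) + 1 = 0 := by decide
      simp [this]
  · apply Finset.prod_congr rfl
    intro j hj
    have : j ≠ i := (Finset.mem_erase.1 hj).1
    simp [this]

/-- Huang's signing as a potential. The value on the pair `(w, w')` is the product of the signs
at the coordinates where `w` and `w'` differ. -/
def tauVal (w w' : Fin 9 → ZMod 2) : ℂ := ∏ k, if w k = w' k then (1 : ℂ) else sg w k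

lemma tauVal_step (w : Fin 9 → ZMod 2) (i : Fin 9) : tauVal w (w + Pi.single i 1) = sg w i := by
  unfold tauVal
  rw [Finset.prod_eq_single i]
  · rw [if_neg]
    simp
  · intro j _ hj
    rw [if_pos]
    simp [hj]
  · intro h; exact absurd (mem_univ _) h

def tau : Potential Q9 where
  val := tauVal
  unit := by
    rintro x y ⟨i, rfl⟩
    rw [tauVal_step]
    have h := congrArg norm (sg_sq x i)
    rw [norm_mul, norm_one] at h
    nlinarith [norm_nonneg (sg x i)]
  anti := by
    rintro x y ⟨i, rfl⟩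
    have h1 : tauVal (x + Pi.single i 1) x = sg (x + Pi.single i 1) i := by
      have h2 : x = (x + Pi.single i 1) + Pi.single i 1 := by rw [add_assoc, two9, add_zero]
      have h3 := tauVal_step (x + Pi.single i 1) i
      rwa [← h2] at h3
    rw [h1, tauVal_step, sg_conj, sg_flip_ge x le_rfl]

lemma am_tau (w : Fin 9 → ZMod 2) (i : Fin 9) : am Q9 tau w (w + Pi.single i 1) = sg w i := by
  have h : Q9.Adj w (w + Pi.single i 1) := ⟨i, rfl⟩
  unfold am
  rw [if_pos h]
  exact tauVal_step w i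

lemma tau_sq (f : (Fin 9 → ZMod 2) → ℂ) (w : Fin 9 → ZMod 2) :
    ∑ i, sg w i * ∑ j, sg (w + Pi.single i 1) j * f (w + Pi.single i 1 + Pi.single j 1) =
      9 * f w := by
  have key : ∑ i : Fin 9, ∑ j : Fin 9, (sg w i * sg (w + Pi.single i 1) j) *
      f (w + Pi.single i 1 + Pi.single j 1) = 9 * f w := by
    have h1 : ∀ i j : Fin 9, i ≠ j → (sg w i * sg (w + Pi.single i 1) j) *
        f (w + Pi.single i 1 + Pi.single j 1) = - ((sg w j * sg (w + Pi.single j 1) i) *
        f (w + Pi.single j 1 + Pi.single i 1)) := by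
      intro i j hij
      have h2 : w + Pi.single i 1 + Pi.single j 1 = w + Pi.single j 1 + Pi.single i 1 := by abel
      rw [h2]
      rcases lt_or_gt_of_ne hij with h | h
      · rw [sg_flip_lt w h, sg_flip_ge w h.le]; ring
      · rw [sg_flip_lt w h, sg_flip_ge w h.le]; ring
    have h3 : ∀ i : Fin 9, (sg w i * sg (w + Pi.single i 1) i) *
        f (w + Pi.single i 1 + Pi.single i 1) = f w := by
      intro i
      rw [sg_flip_ge w le_rfl, sg_sq, one_mul, add_assoc, two9, add_zero]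
    -- antisymmetrise
    set T : Fin 9 → Fin 9 → ℂ := fun i j => (sg w i * sg (w + Pi.single i 1) j) *
        f (w + Pi.single i 1 + Pi.single j 1) with hT
    have h4 : ∑ i : Fin 9, ∑ j : Fin 9, T i j = ∑ i : Fin 9, ∑ j : Fin 9, (if i = j then f w else 0) +
        ∑ i : Fin 9, ∑ j : Fin 9, (if i = j then 0 else T i j) := by
      rw [← Finset.sum_add_distrib]
      apply Finset.sum_congr rfl
      intro i _
      rw [← Finset.sum_add_distrib]
      apply Finset.sum_congr rfl
      intro j _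
      by_cases h : i = j
      · subst h
        simp only [if_true, add_zero]
        exact h3 i
      · simp [h]
    have h5 : ∑ i : Fin 9, ∑ j : Fin 9, (if i = j then 0 else T i j) = 0 := by
      have h6 : ∑ i : Fin 9, ∑ j : Fin 9, (if i = j then 0 else T i j) =
          - ∑ i : Fin 9, ∑ j : Fin 9, (if i = j then 0 else T i j) := by
        conv_rhs => rw [Finset.sum_comm]
        rw [← Finset.sum_neg_distrib]
        apply Finset.sum_congr rfl
        intro i _
        rw [← Finset.sum_neg_distrib]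
        apply Finset.sum_congr rfl
        intro j _
        by_cases h : i = j
        · simp [h]
        · rw [if_neg h, if_neg (fun h' => h h'.symm)]
          exact h1 i j h
      have h7 := self_eq_neg.1 h6
      exact h7
    have h8 : ∑ i : Fin 9, ∑ j : Fin 9, (if i = j then f w else 0) = 9 * f w := by
      simp only [Finset.sum_ite_eq, mem_univ, if_true, Finset.sum_const, card_univ, Fintype.card_fin,
        nsmul_eq_mul]
      norm_num
    show ∑ i, ∑ j, T i j = 9 * f w
    rw [h4, h5, h8, add_zero]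
  rw [← key]
  apply Finset.sum_congr rfl
  intro i _
  rw [Finset.mul_sum]
  apply Finset.sum_congr rfl
  intro j _
  ring

lemma lap_tau (f : (Fin 9 → ZMod 2) → ℂ) (w : Fin 9 → ZMod 2) :
    lap Q9 tau f w = 9 * f w - ∑ i, sg w i * f (w + Pi.single i 1) := by
  rw [lap_eq Q9 tau (n := 9) (cay_reg single_inj)]
  have h := cay_sum (h2 := two9) (h0 := single_ne) single_inj tau w f
  have h' : ∑ y, am Q9 tau w y * f y = ∑ i, am Q9 tau w (w + Pi.single i 1) * f (w + Pi.single i 1) := h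
  rw [h']
  simp only [am_tau]
  norm_num

lemma lam1_tau : 6 ≤ lam1 Q9 tau := by
  apply le_csInf (eig_nonempty Q9 tau)
  rintro μ ⟨f, hf, hfe⟩
  have h1 : ∀ w, ∑ i, sg w i * f (w + Pi.single i 1) = (9 - (μ : ℂ)) * f w := by
    intro w
    have := hfe w
    rw [lap_tau] at this
    linear_combination -this
  obtain ⟨w, hw⟩ : ∃ w, f w ≠ 0 := by
    by_contra h
    push Not at h
    exact hf (funext h)
  have h2 := tau_sq f w
  simp only [h1] at h2
  have h3 : ∑ i, sg w i * ((9 - (μ : ℂ)) * f (w + Pi.single i 1)) =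
      (9 - (μ : ℂ)) * ((9 - (μ : ℂ)) * f w) := by
    rw [← h1 w, Finset.mul_sum]
    apply Finset.sum_congr rfl
    intro i _
    ring
  rw [h3] at h2
  have h4 : ((9 - (μ : ℂ)) ^ 2 - 9) * f w = 0 := by linear_combination h2
  have h5 : (9 - (μ : ℂ)) ^ 2 - 9 = 0 := by
    rcases mul_eq_zero.1 h4 with h | h
    · exact h
    · exact absurd h hw
  have h6 : ((9 - μ) ^ 2 - 9 : ℝ) = 0 := by
    have : (((9 - μ) ^ 2 - 9 : ℝ) : ℂ) = 0 := by
      push_cast
      exact h5
    exact_mod_cast this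
  have h7 : (6 - μ) * (12 - μ) = 0 := by nlinarith
  rcases mul_eq_zero.1 h7 with h | h <;> linarith

lemma height_Q9 : 6 ≤ height Q9 := by
  have hb : BddAbove (Set.range (fun σ : Potential Q9 => lam1 Q9 σ)) := by
    refine ⟨9, ?_⟩
    rintro _ ⟨σ, rfl⟩
    have := lam1_le_deg Q9 σ (n := 9) (cay_reg single_inj)
    simpa using this
  have hle : lam1 Q9 tau ≤ height Q9 := le_csSup hb ⟨tau, rfl⟩
  exact lam1_tau.trans hle

theorem main : IsLift Q9 G7 pr ∧ height G7 < height Q9 :=
  ⟨isLift, lt_of_lt_of_le height_G7 height_Q9⟩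

end Q131.Mag
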